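import Pool.Agent.helper32.Cant.Basic

/-!
# Modules ENT and NCV: entropies, total variation, far probability
-/

set_option autoImplicit false

namespace Pool.Agent.helper32.Cant

open Finset

section ent

variable {Ω : Type} [Fintype Ω] {α β γ ζ : Type}

theorem tv_nonneg (μ : Ω → ℝ) (X : Ω → α) (Y : Ω → β) (Z : Ω → ζ) (ω : Ω) :
    0 ≤ tv μ X Y Z ω := sum_nonneg fun _ _ => abs_nonneg _

/-- depends on `Y` only through the atom, if `X` is coarser -/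
theorem tv_eq {μ : Ω → ℝ} {X : Ω → α} {Y : Ω → β} (Z : Ω → ζ) (h : Ref X Y) {ω ω' : Ω}
    (hω : Y ω = Y ω') : tv μ X Y Z ω = tv μ X Y Z ω' := by
  refine sum_congr rfl fun z _ => ?_
  rw [ce_eq hω, ce_eq (h ω ω' hω)]

open Classical in
private theorem ENT_decomp (Z : Ω → ζ) (g : ζ → ℝ) (y : Ω) :
    g (Z y) = ∑ z ∈ univ.image Z, g z * ind (Z y = z) := by
  rw [sum_eq_single_of_mem (Z y) (mem_image_of_mem _ (mem_univ _)), ind_of rfl, mul_one]
  intro z _ hz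
  rw [ind_of_not (fun h => hz h.symm), mul_zero]

open Classical in
private theorem ENT_ce_decomp (μ : Ω → ℝ) (X : Ω → α) (Z : Ω → ζ) (g : ζ → ℝ) (ω : Ω) :
    ce μ X (fun y => g (Z y)) ω =
      ∑ z ∈ univ.image Z, g z * ce μ X (fun y => ind (Z y = z)) ω := by
  have : (fun y => g (Z y)) = fun y => ∑ z ∈ univ.image Z, g z * ind (Z y = z) := by
    funext y
    exact ENT_decomp Z g y
  rw [this, ce_sum]
  refine sum_congr rfl fun z _ => ?_
  rw [ce_smul]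

theorem abs_ce_sub_le_tv {μ : Ω → ℝ} (X : Ω → α) (Y : Ω → β) (Z : Ω → ζ) (g : ζ → ℝ)
    (hg : ∀ z, |g z| ≤ 1) (ω : Ω) :
    |ce μ Y (fun y => g (Z y)) ω - ce μ X (fun y => g (Z y)) ω| ≤ tv μ X Y Z ω := by
  classical
  rw [ENT_ce_decomp μ Y, ENT_ce_decomp μ X, ← sum_sub_distrib]
  refine (abs_sum_le_sum_abs _ _).trans ?_
  unfold tv
  refine (sum_le_sum fun z _ => ?_).trans (le_of_eq (sum_congr (by congr!) fun z _ => rfl))
  rw [← mul_sub, abs_mul]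
  exact mul_le_of_le_one_left (abs_nonneg _) (hg z)

open Classical in
/-- the squared Hellinger distance of the conditional laws -/
private noncomputable def ENT_D (μ : Ω → ℝ) (X : Ω → α) (Y : Ω → β) (Z : Ω → ζ) (ω : Ω) : ℝ :=
  ∑ z ∈ univ.image Z, (√(ce μ Y (fun y => ind (Z y = z)) ω) -
    √(ce μ X (fun y => ind (Z y = z)) ω)) ^ 2

private theorem ENT_D_nonneg (μ : Ω → ℝ) (X : Ω → α) (Y : Ω → β) (Z : Ω → ζ) (ω : Ω) :
    0 ≤ ENT_D μ X Y Z ω := sum_nonneg fun _ _ => sq_nonneg _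

private theorem ENT_p_nonneg {μ : Ω → ℝ} (hμ : IsProb μ) (X : Ω → α) (Z : Ω → ζ) (z : ζ) (ω : Ω) :
    0 ≤ ce μ X (fun y => ind (Z y = z)) ω :=
  ce_nonneg hμ.1 X ω fun _ _ _ => ind_nonneg _

open Classical in
private theorem ENT_sum_p {μ : Ω → ℝ} (hμ : IsProb μ) (X : Ω → α) (Z : Ω → ζ) {ω : Ω}
    (hω : 0 < μ ω) : ∑ z ∈ univ.image Z, ce μ X (fun y => ind (Z y = z)) ω = 1 := by
  have h := ENT_ce_decomp μ X Z (fun _ => 1) ω
  rw [ce_const hμ.1 X hω] at h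
  rw [h]
  exact sum_congr rfl fun z _ => by rw [one_mul]

open Classical in
private theorem ENT_D_eq {μ : Ω → ℝ} (hμ : IsProb μ) (X : Ω → α) (Y : Ω → β) (Z : Ω → ζ) {ω : Ω}
    (hω : 0 < μ ω) : ENT_D μ X Y Z ω = 2 - 2 * ∑ z ∈ univ.image Z,
      √(ce μ Y (fun y => ind (Z y = z)) ω * ce μ X (fun y => ind (Z y = z)) ω) := by
  have h1 := ENT_sum_p hμ X Z hω
  have h2 := ENT_sum_p hμ Y Z hω
  have : ∀ z ∈ univ.image Z, (√(ce μ Y (fun y => ind (Z y = z)) ω) -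
      √(ce μ X (fun y => ind (Z y = z)) ω)) ^ 2 = ce μ Y (fun y => ind (Z y = z)) ω +
      ce μ X (fun y => ind (Z y = z)) ω -
      2 * √(ce μ Y (fun y => ind (Z y = z)) ω * ce μ X (fun y => ind (Z y = z)) ω) := by
    intro z _
    rw [Real.sqrt_mul (ENT_p_nonneg hμ Y Z z ω), sub_sq, Real.sq_sqrt (ENT_p_nonneg hμ Y Z z ω),
      Real.sq_sqrt (ENT_p_nonneg hμ X Z z ω)]
    ring
  unfold ENT_D
  rw [sum_congr rfl this, sum_sub_distrib, sum_add_distrib, h1, h2, ← mul_sum]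
  norm_num

/-- total variation against Hellinger -/
private theorem ENT_tv_le {μ : Ω → ℝ} (hμ : IsProb μ) (X : Ω → α) (Y : Ω → β) (Z : Ω → ζ) {ω : Ω}
    (hω : 0 < μ ω) : tv μ X Y Z ω ≤ 2 * √(ENT_D μ X Y Z ω) := by
  classical
  set p : ζ → ℝ := fun z => ce μ Y (fun y => ind (Z y = z)) ω with hp
  set q : ζ → ℝ := fun z => ce μ X (fun y => ind (Z y = z)) ω with hq
  have hp0 : ∀ z, 0 ≤ p z := fun z => ENT_p_nonneg hμ Y Z z ω
  have hq0 : ∀ z, 0 ≤ q z := fun z => ENT_p_nonneg hμ X Z z ω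
  have h1 : ∑ z ∈ univ.image Z, q z = 1 := ENT_sum_p hμ X Z hω
  have h2 : ∑ z ∈ univ.image Z, p z = 1 := ENT_sum_p hμ Y Z hω
  have hD : ENT_D μ X Y Z ω = ∑ z ∈ univ.image Z, (√(p z) - √(q z)) ^ 2 := rfl
  have htv : tv μ X Y Z ω = ∑ z ∈ univ.image Z, |√(p z) - √(q z)| * (√(p z) + √(q z)) := by
    refine sum_congr rfl fun z _ => ?_
    have : p z - q z = (√(p z) - √(q z)) * (√(p z) + √(q z)) := by
      have e1 := Real.mul_self_sqrt (hp0 z)
      have e2 := Real.mul_self_sqrt (hq0 z)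
      nlinarith
    show |p z - q z| = _
    rw [this, abs_mul, abs_of_nonneg (add_nonneg (Real.sqrt_nonneg _) (Real.sqrt_nonneg _))]
  have hcs : (tv μ X Y Z ω) ^ 2 ≤ ENT_D μ X Y Z ω * 4 := by
    rw [htv, hD]
    refine (sum_mul_sq_le_sq_mul_sq _ _ _).trans ?_
    have e1 : ∑ z ∈ univ.image Z, |√(p z) - √(q z)| ^ 2 =
        ∑ z ∈ univ.image Z, (√(p z) - √(q z)) ^ 2 := sum_congr rfl fun z _ => sq_abs _
    rw [e1]
    refine mul_le_mul_of_nonneg_left ?_ (sum_nonneg fun _ _ => sq_nonneg _)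
    calc ∑ z ∈ univ.image Z, (√(p z) + √(q z)) ^ 2 ≤ ∑ z ∈ univ.image Z, 2 * (p z + q z) := by
          refine sum_le_sum fun z _ => ?_
          have e1 := Real.mul_self_sqrt (hp0 z)
          have e2 := Real.mul_self_sqrt (hq0 z)
          nlinarith [sq_nonneg (√(p z) - √(q z))]
      _ = 4 := by
        rw [← mul_sum, sum_add_distrib, h1, h2]
        norm_num
  have h3 : tv μ X Y Z ω ≤ √(ENT_D μ X Y Z ω * 4) :=
    Real.le_sqrt_of_sq_le hcs
  refine h3.trans (le_of_eq ?_)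
  rw [Real.sqrt_mul (ENT_D_nonneg μ X Y Z ω), show (4 : ℝ) = 2 ^ 2 by norm_num,
    Real.sqrt_sq (by norm_num)]
  ring

/-- probability of the own class -/
private theorem ENT_own (μ : Ω → ℝ) (X : Ω → α) (Z : Ω → ζ) (ω : Ω) :
    ce μ X (fun y => ind (Z y = Z ω)) ω = pm μ (fun y => (X y, Z y)) ω / pm μ X ω := by
  unfold ce pm
  congr 1
  refine sum_congr rfl fun y _ => ?_
  rw [mul_assoc]
  congr 1
  by_cases h1 : X y = X ω <;> by_cases h2 : Z y = Z ω <;> simp [ind, h1, h2]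

/-- the key inequality -/
private theorem ENT_key {μ : Ω → ℝ} (hμ : IsProb μ) {X : Ω → α} {Y : Ω → β} (Z : Ω → ζ)
    (_h : Ref X Y) : ex μ (ENT_D μ X Y Z) ≤ Hc μ Z X - Hc μ Z Y := by
  classical
  set p : ζ → Ω → ℝ := fun z => ce μ Y (fun y => ind (Z y = z)) with hp
  set q : ζ → Ω → ℝ := fun z => ce μ X (fun y => ind (Z y = z)) with hq
  have hp0 : ∀ z ω, 0 ≤ p z ω := fun z ω => ENT_p_nonneg hμ Y Z z ω
  have hq0 : ∀ z ω, 0 ≤ q z ω := fun z ω => ENT_p_nonneg hμ X Z z ω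
  -- the mean of the Hellinger affinity
  have h1 : ex μ (fun ω => √(q (Z ω) ω / p (Z ω) ω)) =
      ex μ (fun ω => ∑ z ∈ univ.image Z, √(p z ω * q z ω)) := by
    have e1 : ∀ ω, √(q (Z ω) ω / p (Z ω) ω) =
        ∑ z ∈ univ.image Z, √(q z ω / p z ω) * ind (Z ω = z) := fun ω =>
      ENT_decomp Z (fun z => √(q z ω / p z ω)) ω
    rw [show (fun ω => √(q (Z ω) ω / p (Z ω) ω)) = fun ω =>
      ∑ z ∈ univ.image Z, √(q z ω / p z ω) * ind (Z ω = z) from funext e1, ex_sum, ex_sum]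
    refine sum_congr rfl fun z _ => ?_
    have e2 := ex_mul_ce hμ.1 Y (g := fun ω => √(q z ω / p z ω)) (fun ω ω' hY => by
      show √(q z ω / p z ω) = √(q z ω' / p z ω')
      have a1 : p z ω = p z ω' := ce_eq hY
      have a2 : q z ω = q z ω' := ce_eq (_h ω ω' hY)
      rw [a1, a2]) (fun ω => ind (Z ω = z))
    rw [← e2]
    congr 1
    funext ω
    show √(q z ω / p z ω) * p z ω = √(p z ω * q z ω)
    rcases (hp0 z ω).eq_or_lt with h0 | h0
    · rw [← h0]; simp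
    · rw [show p z ω * q z ω = p z ω ^ 2 * (q z ω / p z ω) by field_simp,
        Real.sqrt_mul (sq_nonneg _), Real.sqrt_sq h0.le, mul_comm]
  have h2 : ex μ (ENT_D μ X Y Z) = 2 - 2 * ex μ (fun ω => √(q (Z ω) ω / p (Z ω) ω)) := by
    rw [h1, ← ex_smul, ← ex_const hμ 2, ← ex_sub, ex_const hμ 2]
    exact ex_congr hμ.1 fun ω hω => ENT_D_eq hμ X Y Z hω
  have h3 : Hc μ Z X - Hc μ Z Y = ex μ (fun ω => -2 * Real.log (√(q (Z ω) ω / p (Z ω) ω))) := by
    unfold Hc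
    rw [← ex_sub]
    refine ex_congr hμ.1 fun ω hω => ?_
    have hX := pm_pos hμ.1 X hω
    have hY := pm_pos hμ.1 Y hω
    have hXZ := pm_pos hμ.1 (fun y => (X y, Z y)) hω
    have hYZ := pm_pos hμ.1 (fun y => (Y y, Z y)) hω
    have a1 : p (Z ω) ω = pm μ (fun y => (Y y, Z y)) ω / pm μ Y ω := ENT_own μ Y Z ω
    have a2 : q (Z ω) ω = pm μ (fun y => (X y, Z y)) ω / pm μ X ω := ENT_own μ X Z ω
    rw [a1, a2, Real.log_sqrt (by positivity), Real.log_div hX.ne' hXZ.ne',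
      Real.log_div hY.ne' hYZ.ne', Real.log_div (div_pos hXZ hX).ne' (div_pos hYZ hY).ne',
      Real.log_div hXZ.ne' hX.ne', Real.log_div hYZ.ne' hY.ne']
    ring
  rw [h2, h3, ← ex_smul, ← ex_const hμ 2, ← ex_sub]
  refine ex_mono hμ.1 fun ω hω => ?_
  rw [ex_const hμ 2]
  have hX := pm_pos hμ.1 X hω
  have hY := pm_pos hμ.1 Y hω
  have hXZ := pm_pos hμ.1 (fun y => (X y, Z y)) hω
  have hYZ := pm_pos hμ.1 (fun y => (Y y, Z y)) hω
  have a1 : p (Z ω) ω = pm μ (fun y => (Y y, Z y)) ω / pm μ Y ω := ENT_own μ Y Z ω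
  have a2 : q (Z ω) ω = pm μ (fun y => (X y, Z y)) ω / pm μ X ω := ENT_own μ X Z ω
  have hpos : 0 < √(q (Z ω) ω / p (Z ω) ω) := by
    rw [a1, a2]
    exact Real.sqrt_pos.2 (by positivity)
  have := Real.log_le_sub_one_of_pos hpos
  linarith

theorem ex_tv_le {μ : Ω → ℝ} (hμ : IsProb μ) {X : Ω → α} {Y : Ω → β} (Z : Ω → ζ) (h : Ref X Y) :
    ex μ (tv μ X Y Z) ≤ 2 * √(Hc μ Z X - Hc μ Z Y) := by
  calc ex μ (tv μ X Y Z) ≤ ex μ (fun ω => 2 * √(ENT_D μ X Y Z ω)) :=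
        ex_mono hμ.1 fun ω hω => ENT_tv_le hμ X Y Z hω
    _ = 2 * ex μ (fun ω => √(ENT_D μ X Y Z ω)) := ex_smul μ 2 _
    _ ≤ 2 * √(ex μ (ENT_D μ X Y Z)) := by
      have := ex_sqrt_le hμ (f := ENT_D μ X Y Z) (ENT_D_nonneg μ X Y Z)
      linarith
    _ ≤ 2 * √(Hc μ Z X - Hc μ Z Y) := by
      have := Real.sqrt_le_sqrt (ENT_key hμ Z h)
      linarith

theorem Hc_nonneg {μ : Ω → ℝ} (hμ : IsProb μ) (Z : Ω → ζ) (X : Ω → α) : 0 ≤ Hc μ Z X := by
  refine ex_nonneg hμ.1 fun ω hω => Real.log_nonneg ?_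
  have h1 := pm_pos hμ.1 (fun y => (X y, Z y)) hω
  rw [le_div_iff₀ h1, one_mul]
  exact pm_anti hμ.1 (fun ω ω' h => congrArg Prod.fst h) ω

theorem Hc_anti {μ : Ω → ℝ} (hμ : IsProb μ) (Z : Ω → ζ) {X : Ω → α} {Y : Ω → β} (h : Ref X Y) :
    Hc μ Z Y ≤ Hc μ Z X := by
  have h1 := ENT_key hμ Z h
  have h2 : 0 ≤ ex μ (ENT_D μ X Y Z) := ex_nonneg hμ.1 fun ω _ => ENT_D_nonneg μ X Y Z ω
  linarith

theorem Hc_le_log {μ : Ω → ℝ} (hμ : IsProb μ) (Z : Ω → ζ) (X : Ω → α) [Fintype γ] (code : Ω → γ)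
    (h : ∀ ω ω', X ω = X ω' → code ω = code ω' → Z ω = Z ω') :
    Hc μ Z X ≤ Real.log (Fintype.card γ) := by
  classical
  have hne : Nonempty Ω := by
    by_contra hcon
    rw [not_nonempty_iff] at hcon
    have := hμ.2
    simp at this
  have hγ : 0 < (Fintype.card γ : ℝ) := by
    have : Nonempty γ := hne.map code
    exact_mod_cast Fintype.card_pos
  set C : ℝ := (Fintype.card γ : ℝ) with hC
  set W : Ω → α × ζ := fun y => (X y, Z y) with hW
  -- each `X`-atom contains at most `C` atoms of `W`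
  have h1 : ∀ y, ∑ ω, μ ω * (ind (X y = X ω) / pm μ W ω) ≤ C := by
    intro y
    have e1 : ∀ ω, μ ω * (ind (X y = X ω) / pm μ W ω) =
        ∑ c : γ, μ ω * (ind (X y = X ω ∧ code ω = c) / pm μ W ω) := by
      intro ω
      rw [sum_eq_single (code ω)]
      · congr 2
        exact ind_congr (by simp)
      · intro c _ hc
        rw [ind_of_not (fun hh => hc hh.2.symm)]
        simp
      · intro hh
        exact absurd (mem_univ _) hh
    rw [sum_congr rfl fun ω _ => e1 ω, sum_comm]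
    have e2 : ∀ c : γ, ∑ ω, μ ω * (ind (X y = X ω ∧ code ω = c) / pm μ W ω) ≤ 1 := by
      intro c
      by_cases hex : ∃ ω0, 0 < μ ω0 ∧ X y = X ω0 ∧ code ω0 = c
      · obtain ⟨ω0, h0, h01, h02⟩ := hex
        have hpm := pm_pos hμ.1 W h0
        have e3 : ∑ ω, μ ω * (ind (X y = X ω ∧ code ω = c) / pm μ W ω) ≤
            ∑ ω, μ ω * ind (W ω = W ω0) / pm μ W ω0 := by
          refine sum_le_sum fun ω _ => ?_
          by_cases hh : X y = X ω ∧ code ω = c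
          · have hW' : W ω = W ω0 := by
              have a1 : X ω = X ω0 := hh.1.symm.trans h01
              have a2 : Z ω = Z ω0 := h ω ω0 a1 (hh.2.trans h02.symm)
              simp [hW, a1, a2]
            rw [ind_of hh, ind_of hW', pm_eq hW', mul_one, mul_one_div]
          · rw [ind_of_not hh, zero_div, mul_zero]
            exact div_nonneg (mul_nonneg (hμ.1 ω) (ind_nonneg _)) hpm.le
        refine e3.trans (le_of_eq ?_)
        rw [← sum_div]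
        exact div_self hpm.ne'
      · push Not at hex
        refine le_trans (le_of_eq (sum_eq_zero fun ω _ => ?_)) zero_le_one
        by_cases h0 : 0 < μ ω
        · rw [ind_of_not (fun hh => hex ω h0 hh.1 hh.2), zero_div, mul_zero]
        · have : μ ω = 0 := le_antisymm (not_lt.1 h0) (hμ.1 ω)
          rw [this, zero_mul]
    calc ∑ c : γ, ∑ ω, μ ω * (ind (X y = X ω ∧ code ω = c) / pm μ W ω) ≤ ∑ c : γ, (1 : ℝ) :=
          sum_le_sum fun c _ => e2 c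
      _ = C := by simp [hC]
  have h2 : ex μ (fun ω => pm μ X ω / pm μ W ω) ≤ C := by
    have e1 : ex μ (fun ω => pm μ X ω / pm μ W ω) =
        ∑ y, μ y * ∑ ω, μ ω * (ind (X y = X ω) / pm μ W ω) := by
      unfold ex
      simp only [mul_sum]
      rw [sum_comm]
      refine sum_congr rfl fun ω _ => ?_
      have : pm μ X ω = ∑ y, μ y * ind (X y = X ω) := rfl
      rw [this, sum_div, mul_sum]
      refine sum_congr rfl fun y _ => ?_
      ring
    rw [e1]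
    calc ∑ y, μ y * ∑ ω, μ ω * (ind (X y = X ω) / pm μ W ω) ≤ ∑ y, μ y * C :=
          sum_le_sum fun y _ => mul_le_mul_of_nonneg_left (h1 y) (hμ.1 y)
      _ = C := by rw [← sum_mul, hμ.2, one_mul]
  have h3 : Hc μ Z X ≤ ex μ (fun ω => (pm μ X ω / pm μ W ω) * (1 / C) + (Real.log C - 1)) := by
    refine ex_mono hμ.1 fun ω hω => ?_
    have hX := pm_pos hμ.1 X hω
    have hXW := pm_pos hμ.1 W hω
    have a1 := Real.log_le_sub_one_of_pos (show 0 < (pm μ X ω / pm μ W ω) * (1 / C) by positivity)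
    rw [Real.log_mul (by positivity) (by positivity), one_div, Real.log_inv] at a1
    rw [one_div]
    linarith
  have h4 : ex μ (fun ω => (pm μ X ω / pm μ W ω) * (1 / C) + (Real.log C - 1)) =
      ex μ (fun ω => pm μ X ω / pm μ W ω) * (1 / C) + (Real.log C - 1) := by
    rw [ex_add, ex_const hμ]
    congr 1
    rw [show (fun ω => (pm μ X ω / pm μ W ω) * (1 / C)) = fun ω => (1 / C) *
      (pm μ X ω / pm μ W ω) from funext fun ω => mul_comm _ _, ex_smul, mul_comm]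
  have h5 : ex μ (fun ω => pm μ X ω / pm μ W ω) * (1 / C) ≤ 1 := by
    rw [mul_one_div, div_le_one hγ]
    exact h2
  linarith

/-- conditional mutual information is symmetric -/
theorem Hc_comm {μ : Ω → ℝ} (hμ : IsProb μ) (Z : Ω → ζ) (X : Ω → α) (V : Ω → γ) :
    Hc μ Z X - Hc μ Z (fun y => (X y, V y)) = Hc μ V X - Hc μ V (fun y => (X y, Z y)) := by
  unfold Hc
  rw [← ex_sub, ← ex_sub]
  refine ex_congr hμ.1 fun ω hω => ?_
  have e : pm μ (fun y => ((X y, V y), Z y)) = pm μ (fun y => ((X y, Z y), V y)) :=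
    pm_congr fun a b => by
      simp only [Prod.mk.injEq]
      tauto
  have h1 := pm_pos hμ.1 X hω
  have h2 := pm_pos hμ.1 (fun y => (X y, Z y)) hω
  have h3 := pm_pos hμ.1 (fun y => (X y, V y)) hω
  have h4 := pm_pos hμ.1 (fun y => ((X y, Z y), V y)) hω
  simp only [e]
  rw [Real.log_div h1.ne' h2.ne', Real.log_div h3.ne' h4.ne', Real.log_div h1.ne' h3.ne',
    Real.log_div h2.ne' h4.ne']
  ring

theorem Hc_congr {μ : Ω → ℝ} {Z : Ω → ζ} {Z' : Ω → γ} {X : Ω → α} {Y : Ω → β}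
    (hX : ∀ ω ω', X ω = X ω' ↔ Y ω = Y ω')
    (hZ : ∀ ω ω', (X ω = X ω' ∧ Z ω = Z ω') ↔ (Y ω = Y ω' ∧ Z' ω = Z' ω')) :
    Hc μ Z X = Hc μ Z' Y := by
  unfold Hc
  rw [pm_congr hX, pm_congr (X := fun y => (X y, Z y)) (Y := fun y => (Y y, Z' y)) fun a b => by
    simpa only [Prod.mk.injEq] using hZ a b]

/-- the far probability for the finer observable -/
theorem ncf_compare {μ : Ω → ℝ} (hμ : IsProb μ) {X : Ω → α} {Y : Ω → β} (h : Ref X Y) (b : Ω → ℕ)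
    {ω : Ω} (hω : 0 < μ ω) : |ncf μ Y b ω - ncf μ X b ω| ≤ 2 * tv μ X Y b ω := by
  set GX : ℕ → ℝ := fun t => ce μ X (fun y' => ind (t + 2 ≤ b y' ∨ b y' + 2 ≤ t)) ω with hGX
  set GY : ℕ → ℝ := fun t => ce μ Y (fun y' => ind (t + 2 ≤ b y' ∨ b y' + 2 ≤ t)) ω with hGY
  have e1 : ncf μ X b ω = ce μ X (fun y => GX (b y)) ω := rfl
  have e2 : ncf μ Y b ω = ce μ Y (fun y => GY (b y)) ω := rfl
  have habs : ∀ p : Prop, |ind p| ≤ 1 := fun p => by
    rw [abs_of_nonneg (ind_nonneg p)]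
    exact ind_le_one p
  have h1 : ∀ t, |GX t| ≤ 1 := fun t =>
    abs_ce_le_of hμ.1 X _ ω zero_le_one fun y _ _ => habs _
  have h2 : ∀ t, |GY t - GX t| ≤ tv μ X Y b ω := fun t =>
    abs_ce_sub_le_tv X Y b (fun z => ind (t + 2 ≤ z ∨ z + 2 ≤ t)) (fun z => habs _) ω
  have h3 : |ce μ Y (fun y => GX (b y)) ω - ce μ X (fun y => GX (b y)) ω| ≤ tv μ X Y b ω :=
    abs_ce_sub_le_tv X Y b GX h1 ω
  have h4 : |ce μ Y (fun y => GY (b y)) ω - ce μ Y (fun y => GX (b y)) ω| ≤ tv μ X Y b ω := by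
    rw [← ce_sub]
    exact abs_ce_le_of hμ.1 Y _ ω (tv_nonneg μ X Y b ω) fun y _ _ => h2 (b y)
  rw [e1, e2]
  calc |ce μ Y (fun y => GY (b y)) ω - ce μ X (fun y => GX (b y)) ω|
      ≤ |ce μ Y (fun y => GY (b y)) ω - ce μ Y (fun y => GX (b y)) ω| +
        |ce μ Y (fun y => GX (b y)) ω - ce μ X (fun y => GX (b y)) ω| := abs_sub_le _ _ _
    _ ≤ 2 * tv μ X Y b ω := by linarith

theorem ncf_nonneg {μ : Ω → ℝ} (hμ : IsProb μ) (X : Ω → α) (b : Ω → ℕ) (ω : Ω) :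
    0 ≤ ncf μ X b ω :=
  ce_nonneg hμ.1 X ω fun _ _ _ => ce_nonneg hμ.1 X ω fun _ _ _ => ind_nonneg _

theorem ncf_le_one {μ : Ω → ℝ} (hμ : IsProb μ) (X : Ω → α) (b : Ω → ℕ) (ω : Ω) :
    ncf μ X b ω ≤ 1 := by
  refine (le_abs_self _).trans (abs_ce_le_of hμ.1 X _ ω zero_le_one fun y _ _ =>
    abs_ce_le_of hμ.1 X _ ω zero_le_one fun y' _ _ => ?_)
  rw [abs_of_nonneg (ind_nonneg _)]
  exact ind_le_one _

end ent

end Pool.Agent.helper32.Cant
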